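import Pool.Agent.Q138.PS.VJ
import Pool.Agent.Results.MP_1eadae_ag.Hyperlogarithms

/-!
# Linear relations between products of hyperlogarithms at `1 / t`, `t` close to `α P(n)`

Let `q ≥ 2` and let `𝒞` be a countable set of complex numbers (for example all periods). Outside a set of real numbers of Hausdorff
dimension at most `q / (q + 1 / (q 2 ^ (q - 1)))` (that is `8 / 9` for `q = 2`) every `α > 0` has the following property. There is
`η > 0` such that for ALL finite sets `a_1, …, a_r` of nonzero integers, ALL `W` and ALL `ℚ`-spaces `V` spanned by finitely many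
elements of `𝒞` there is `κ > 0` such that for all large `N` and ALL integral polynomials `P` of degree `q` with positive
leading coefficient and coefficients of size at most `N ^ η`: for all but `N ^ (1 - κ)` of the `n ≤ N`, for EVERY integer `t` with
`|t - ⌊α P(n)⌋| ≤ N ^ κ` the numbers `(log t)^e HL_w(1 / t)`, `e ≤ W`, `w` a word of length at most `W` whose last letter is not
`dy / y`, satisfy no nontrivial linear relation with coefficients in `V`.
-/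

set_option autoImplicit false

namespace Pool.Agent.Results.MP_1eadae_ag.HyperlogsAlongRealMultiples

open Finset Filter Topology Module
open Pool.Agent.Q138.PS
open Hyperlogarithms (num Related window)

/-- at no integer `t` of `S` the numbers `(log t)^e HL_w(1 / t)` satisfy a nontrivial linear relation over `V` -/
def AllFree {r : ℕ} (a : Fin r → ℤ) (W : ℕ) (V : Submodule ℚ ℂ) (S : Set ℕ) : Prop := ∀ t ∈ S, ¬ Related V (num a W t)

theorem windows {r : ℕ} (a : Fin r → ℤ) (ha : Function.Injective a) (h0 : ∀ i, a i ≠ 0) (W : ℕ) (V : Submodule ℚ ℂ)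
    (hV : Module.Finite ℚ V) : ∃ B : ℕ, ∃ c : ℝ, 0 < c ∧ ∃ x₀ : ℕ, ∀ x H : ℕ, x₀ ≤ x → (H : ℝ) ≤ (x : ℝ) ^ c →
      ∃ T : Finset ℕ, T.card ≤ B ∧ AllFree a W V (Set.Icc x (x + H) \ T) := by
  classical
  obtain ⟨E, M, h⟩ := (Hyperlogarithms.result r a ha h0 W (finrank ℚ V)).1
  obtain ⟨c, hc, x₀, hx₀⟩ := pow_win E 2
  refine ⟨M, c, hc, x₀, fun x H hx hH => ?_⟩
  have h1 := hx₀ x H hx hH
  have h2 : (H + 2) ^ E ≤ x := by
    refine le_trans (Nat.pow_le_pow_left (by omega : H + 2 ≤ 2 * (H + 1)) E) ?_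
    omega
  obtain ⟨hf, hcard⟩ := h H (x + H) (h2.trans (Nat.le_add_right _ _)) V le_rfl
  refine ⟨hf.toFinset, ?_, ?_⟩
  · rwa [← Set.ncard_eq_toFinset_card _ hf]
  · rintro t ⟨⟨ht1, ht2⟩, ht3⟩ hrel
    apply ht3
    rw [Set.Finite.coe_toFinset]
    exact ⟨by omega, ht2, hrel⟩

/-- **Theorem.** -/
theorem result (q : ℕ) (hq : 2 ≤ q) (𝒞 : Set ℂ) (h𝒞 : 𝒞.Countable) :
    ∃ E : Set ℝ, dimH E ≤ ENNReal.ofReal (q / (q + 1 / ((q : ℝ) * 2 ^ (q - 1)))) ∧ ∀ α : ℝ, 0 < α → α ∉ E →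
      ∃ η : ℝ, 0 < η ∧ ∀ (r : ℕ) (a : Fin r → ℤ), Function.Injective a → (∀ i, a i ≠ 0) → ∀ (W s : ℕ) (v : Fin s → ℂ),
      (∀ i, v i ∈ 𝒞) →
      ∃ κ : ℝ, 0 < κ ∧ ∀ᶠ N : ℕ in atTop, ∀ P : Polynomial ℤ, P.natDegree = q → 0 < P.leadingCoeff →
        (∀ j, |((P.coeff j : ℤ) : ℝ)| ≤ (N : ℝ) ^ η) →
        (badG (AllFree a W (Submodule.span ℚ (Set.range v))) ⌊(N : ℝ) ^ κ⌋₊ α P N : ℝ) ≤ (N : ℝ) ^ (1 - κ) := by
  classical
  have hC : Countable {x : ℂ // x ∈ 𝒞} := h𝒞.to_subtype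
  obtain ⟨E, hE, hg⟩ := win_tuples (ι := (Σ r : ℕ, Fin r → ℤ) × ℕ × (Σ s : ℕ, Fin s → {x : ℂ // x ∈ 𝒞})) q hq
    (fun i => AllFree i.1.2 i.2.1 (Submodule.span ℚ (Set.range fun j => (i.2.2.2 j : ℂ))))
    (fun i S S' hS h t ht => h t (hS ht))
  refine ⟨E, hE, fun α hα hαE => ?_⟩
  obtain ⟨η, hη, h1⟩ := hg α hα hαE
  refine ⟨η, hη, fun r a ha h0 W s v hv => ?_⟩
  have hV : Module.Finite ℚ (Submodule.span ℚ (Set.range v)) := Module.Finite.span_of_finite _ (Set.finite_range v)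
  obtain ⟨B, c, hc, h2⟩ := windows a ha h0 W _ hV
  exact h1 (⟨r, a⟩, W, ⟨s, fun j => ⟨v j, hv j⟩⟩) B c hc h2

end Pool.Agent.Results.MP_1eadae_ag.HyperlogsAlongRealMultiples
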