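import Pool.Agent.Q280.TG.WE

/-!
# Relative forms of the period conjecture: generation of the kernel, transcendence degrees and stability
-/

set_option autoImplicit false

open MvPolynomial Pool.Agent.Q280.TG Pool.Agent.Q280.TG.W

namespace Pool.Agent.Results.MP_1eadae_ag.RelativeForms

/-- The algebraic numbers. -/
abbrev Qbar : Type := algebraicClosure ℚ ℂ

/-- The kernel of the evaluation of formal periods is generated by its elements in `B`. -/
def Generates (D : Periods Qbar) (B : Set D.Fun) : Prop := ∀ P, aeval (co D.β) P = 0 →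
  ∃ (n : ℕ) (Q R : Fin n → MvPolynomial (Var D.N) Qbar), (∀ j, D.fp (Q j) ∈ B ∧ aeval (co D.β) (Q j) = 0) ∧
    D.fp P = D.fp (∑ j, R j * Q j)

/-- For every category `C` of finite dimension `n`, if the common part of `C` and `B` has dimension `m`, then the
transcendence degree of the periods of `C` over the field generated by the periods of `B` is `n - m`. -/
def Numerical (D : Periods Qbar) (B : Set D.Fun) : Prop := ∀ C n, D.IsCategory C → TD Qbar C n →
  ∃ m ≤ n, TD Qbar (C ∩ B) m ∧ TD (IntermediateField.adjoin ℚ (D.per B)) (D.per C) (n - m)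

/-- The matrices `n β`. -/
noncomputable def shift (D : Periods Qbar) (n : GLs D.N Qbar) : GLs D.N ℂ := fun i =>
  Matrix.GeneralLinearGroup.map (algebraMap Qbar ℂ) (n i) * D.β i

/-- All relations are stable under the elements `n` of the group which fix the formal periods in `B`: the Zariski
closure of `β` is stable under the kernel of the category `B`. -/
def Stable (D : Periods Qbar) (B : Set D.Fun) : Prop := ∀ n : D.G, (∀ f ∈ B, ∀ x : D.G, f (n * x) = f x) →
  ∀ P : MvPolynomial (Var D.N) Qbar, aeval (co D.β) P = 0 → aeval (co (shift D n.1)) P = 0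

section

variable {D : Periods Qbar}

noncomputable instance : IsAlgClosed Qbar := (algebraicClosure.isAlgClosure ℚ ℂ).isAlgClosed

theorem halg : ∀ c : Qbar, IsAlgebraic ℚ (algebraMap Qbar ℂ c) := fun c => mem_algebraicClosure_iff.mp c.2

theorem numerical_iff (B : D.Lat) : Numerical D (Periods.S B) ↔ Fn.Rel D.evp B := by
  constructor
  · intro h Q hQ
    obtain ⟨m, _, h2, h3⟩ := h (Periods.S Q) (Fn.wt Q) (Periods.isCategory_S Q) (Periods.td_S.mpr ⟨hQ, rfl⟩)
    rw [Periods.S_inf, Periods.td_S] at h2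
    obtain ⟨_, rfl⟩ := h2
    exact (Periods.td_rel halg hQ).mp h3
  · intro h C n hC hn
    obtain ⟨Q, rfl⟩ := Periods.exists_S hC
    obtain ⟨hQ, rfl⟩ := Periods.td_S.mp hn
    refine ⟨Fn.wt (Q ⊓ B), Fn.wt_mono hQ inf_le_left, ?_, (Periods.td_rel halg hQ).mpr (h Q hQ)⟩
    rw [Periods.S_inf]
    exact Periods.td_S.mpr ⟨Fn.fn_le hQ inf_le_left, rfl⟩

theorem generates_iff (B : D.Lat) : Generates D (Periods.S B) ↔ Fn.Rel D.evp B :=
  (Periods.cq_iff B).trans (Fn.gen_iff_rel D.evp D.toPD.pts B)

theorem stable_iff (B : D.Lat) : Stable D (Periods.S B) ↔ Fn.Rel D.evp B :=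
  (Periods.stab_iff B).trans ⟨Fn.rel_of_stab D.evp D.toPD.pts, Fn.stab_of_rel D.evp D.toPD.pts⟩

end

/-- **Theorem.** There is a category `B₀` such that for every category `B` the following are equivalent: `B` contains
`B₀`; the kernel of the evaluation of formal periods is generated by its elements in `B`; the transcendence degrees
over the field of periods of `B` are as large as possible; the Zariski closure of `β` is stable under the kernel
of `B`. The category `B₀` is trivial if and only if the evaluation is injective. -/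
theorem result (D : Periods Qbar) : ∃ B₀, D.IsCategory B₀ ∧
    (∀ B, D.IsCategory B → (Generates D B ↔ B₀ ⊆ B) ∧ (Numerical D B ↔ B₀ ⊆ B) ∧ (Stable D B ↔ B₀ ⊆ B)) ∧
    ((∀ f ∈ B₀, ∃ c, f = D.fp (C c)) ↔ ∀ P, aeval (co D.β) P = 0 → D.fp P = 0) := by
  obtain ⟨B₀, h1, h2, h3, h4, -⟩ := Fn.main D.evp halg D.toPD.pts
  have key : ∀ B : D.Lat, Fn.Rel D.evp B ↔ B₀ ≤ B := fun B => by
    refine ⟨h2 B, fun h => Fn.family D.evp halg D.toPD.pts fun V hV => ?_⟩
    rw [h3 V hV]
    exact Fn.df_mono D.evp halg (Fn.fn_le hV inf_le_left) (inf_le_inf_left V h)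
  refine ⟨Periods.S B₀, Periods.isCategory_S B₀, fun B hB => ?_, ?_⟩
  · obtain ⟨b, rfl⟩ := Periods.exists_S hB
    rw [generates_iff, numerical_iff, stable_iff, key, Periods.S_le]
    exact ⟨Iff.rfl, Iff.rfl, Iff.rfl⟩
  · rw [Periods.S_bot]
    rw [← Periods.gen_bot, Fn.gen_iff_rel D.evp D.toPD.pts, key, le_bot_iff]

end Pool.Agent.Results.MP_1eadae_ag.RelativeForms
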