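import Mathlib
import Pool.Agent.Q147.GP.PlainMain
import Pool.Agent.W245.EB.RedZ

/-!
# Integrals of the second kind which are related in bounded degree to given periods

Let `x_1, ..., x_n` be algebraically independent over the field `ℚ̄` of algebraic numbers, for
instance a transcendence basis of the field generated by the periods of some pairs `(X, Y)`. The
period conjecture predicts which further periods `y` are algebraic functions of `x_1, ..., x_n`. We
consider the relations `f(y, x_1, ..., x_n) = 0`, `f ≠ 0`, of total degree at most `D`.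

(1) Among the periods `y` in a `ℚ̄`-space `W` of finite dimension (for instance the space of all
periods of a pair `(X, Y)`) those which satisfy such a relation form a *finite union of subspaces*
`U`, and `dim (U + ℚ̄ + ℚ̄ x_1 + ⋯ + ℚ̄ x_n) ≤ binom (D + n, n)`.

(2) Let `E = ℂ/Ω` be an elliptic curve over `ℚ̄`, `ξ = -σ x dx/y + ρ dx/y ≠ 0` a differential of
the second kind over `ℚ̄`, so that `∫^z ξ = σ ζ(z) + ρ z`, and `Γ` a finitely generated group of
elliptic logarithms of points of `E(ℚ̄)`. The number `J(p) = σ ζ(p) + ρ p`, `p ∈ Γ ∖ Ω`, is a period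
of `(E ∖ O, {a, P})`. There are finitely many subgroups `H` of `Γ` such that for `p ∈ Γ ∖ Ω` the
periods `x_1, ..., x_n, J(p)` satisfy a relation of total degree at most `D` if and only if `p` is
in one of these `H`; and every `H` is small: if it contains `r` points which are linearly
independent over `End(E) ⊗ ℚ` then `r + 1 ≤ binom (D + n, n)`, and `n + r + 1 ≤ binom (D + n, n)` if
`x_i = J(q_i)` with elliptic logarithms `q_i` of algebraic points, independent of the `r` points.
For `n = 1`: the group `Γ` may have any rank, but the points `P` whose period `J(p)` is related to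
the given transcendental number `x_1` in degree `D` are in finitely many subgroups of rank at
most `D` over `End(E)`. (For `D = 1` and `x_1 = J(q_1)` this is rank `0`: the theorem on linear
forms.)

The proof. For a place of the field of algebraic functions of `x` the value of `∑ t_i w_i` and of
its conjugates is constant for all `t ∈ ℚ̄^e` outside finitely many subspaces; by Gauss' lemma this
holds for the total degree of the minimal relation between `x` and `∑ t_i w_i`, and an induction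
gives the finite union of subspaces. If all elements of a space satisfy relations of degree at
most `D`, then the norms of its elements are, up to a common denominator, polynomials in
`x_1, ..., x_n` of degree at most `D`, which vanish if they vanish at `binom (D + n, n)` suitable
points. (2) follows with the addition theorem for `ζ` and the theorem on linear forms in integrals of
the second kind, completely formalized in the starting library (`Pool.Agent.W245.EB.RedZ`).
-/

set_option autoImplicit false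

open scoped PeriodPair

noncomputable section

namespace Pool.Agent.Results.MP_1eadae_ag.SecondKindFibres

open Module

/-- The field of algebraic numbers. -/
abbrev Qbar : IntermediateField ℚ ℂ := algebraicClosure ℚ ℂ

/-- The numbers `x_1, ..., x_n`, `y` satisfy a nonzero polynomial relation over `ℚ̄` of total degree
at most `D`. -/
def Related {n : ℕ} (x : Fin n → ℂ) (D : ℕ) (y : ℂ) : Prop :=
  ∃ f : MvPolynomial (Fin (n + 1)) Qbar, f ≠ 0 ∧ f.totalDegree ≤ D ∧
    MvPolynomial.aeval (Fin.cons y x : Fin (n + 1) → ℂ) f = 0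

/-- The Weierstrass zeta function
`ζ(z) = 1/z + ∑_{l ≠ 0} (1/(z - l) + 1/l + z/l²)` (in Lean `1/0 = 0`, so that the term with `l = 0`
of the sum below is `1/z`). -/
def zetaW (L : PeriodPair) (z : ℂ) : ℂ := ∑' l : L.lattice, (1 / (z - l) + 1 / l + z / l ^ 2)

/-- `β` belongs to the field `k = End(ℂ/Ω) ⊗ ℚ`: some multiple `m β`, `m ≥ 1`, maps the lattice `Ω`
to itself. -/
def IsMult (L : PeriodPair) (β : ℂ) : Prop :=
  ∃ m : ℕ, 0 < m ∧ ∀ ω ∈ L.lattice, (m : ℂ) * β * ω ∈ L.lattice

/-- The numbers `w_j` are linearly independent over `k`. -/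
def IndepMult (L : PeriodPair) {R : ℕ} (w : Fin R → ℂ) : Prop :=
  ∀ β : Fin R → ℂ, (∀ j, IsMult L (β j)) → ∑ j, β j * w j = 0 → ∀ j, β j = 0

open Pool.Agent.W245.EB Pool.Agent.Q147.GP

instance : IsAlgClosed Qbar := (algebraicClosure.isAlgClosure ℚ ℂ).isAlgClosed

theorem related_iff {n : ℕ} (x : Fin n → ℂ) (D : ℕ) (y : ℂ) :
    Related x D y ↔ RelT (k := Qbar) x D y := (relT_iff x D y).symm

/-- the integral, extended to the lattice -/
def J (L : PeriodPair) (σ ρ : ℂ) (u : ℂ) : ℂ := σ * zt L u + ρ * u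

theorem J_of_notMem {L : PeriodPair} {σ ρ u : ℂ} (hu : u ∉ L.lattice) :
    J L σ ρ u = σ * zetaW L u + ρ * u := by
  have h : zt L u = zetaW L u := zt_of_notMem hu
  rw [J, h]

theorem mem_Qbar {z : ℂ} : z ∈ Qbar ↔ IsAlgebraic ℚ z := mem_algebraicClosure_iff

theorem J_add {L : PeriodPair} (h2 : IsAlgebraic ℚ L.g₂) (h3 : IsAlgebraic ℚ L.g₃) {σ ρ : ℂ}
    (hσ : IsAlgebraic ℚ σ) {u v : ℂ} (hu : u ∈ EL L) (hv : v ∈ EL L) :
    J L σ ρ (u + v) - J L σ ρ u - J L σ ρ v ∈ Qbar := by
  rw [EL_eq h2 h3] at hu hv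
  have h := zt_add (mem_QB.2 h2) hu hv
  have h' : zt L (u + v) - zt L u - zt L v ∈ Qbar := h
  have e : J L σ ρ (u + v) - J L σ ρ u - J L σ ρ v = σ * (zt L (u + v) - zt L u - zt L v) := by
    rw [J, J, J]
    ring
  rw [e]
  exact mul_mem (mem_Qbar.2 hσ) h'

theorem J_neg {L : PeriodPair} {σ ρ : ℂ} (u : ℂ) : J L σ ρ (-u) = -J L σ ρ u := by
  rw [J, J, zt_neg]
  ring

theorem J_zero {L : PeriodPair} {σ ρ : ℂ} : J L σ ρ 0 = 0 := by
  rw [J, zt_zero]
  ring

/-- the algebraic numbers as a subspace -/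
theorem mem_of_alg {W : Submodule Qbar ℂ} (h1 : (1 : ℂ) ∈ W) {z : ℂ} (hz : z ∈ Qbar) : z ∈ W := by
  have h := W.smul_mem (⟨z, hz⟩ : Qbar) h1
  have e : (⟨z, hz⟩ : Qbar) • (1 : ℂ) = z := by
    rw [Algebra.smul_def, mul_one]
    rfl
  rwa [e] at h

/-- the elements of a group of elliptic logarithms whose integrals lie in a space -/
def sub (L : PeriodPair) (h2 : IsAlgebraic ℚ L.g₂) (h3 : IsAlgebraic ℚ L.g₃) (σ ρ : ℂ)
    (hσ : IsAlgebraic ℚ σ) (Γ : AddSubgroup ℂ) (hΓ : ∀ u ∈ Γ, u ∈ EL L)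
    (W : Submodule Qbar ℂ) (h1 : (1 : ℂ) ∈ W) : AddSubgroup ℂ where
  carrier := {u | u ∈ Γ ∧ J L σ ρ u ∈ W}
  add_mem' := by
    rintro u v ⟨hu, hu'⟩ ⟨hv, hv'⟩
    refine ⟨Γ.add_mem hu hv, ?_⟩
    have h := mem_of_alg h1 (J_add h2 h3 (ρ := ρ) hσ (hΓ u hu) (hΓ v hv))
    have h4 := W.add_mem (W.add_mem h hu') hv'
    have e : J L σ ρ (u + v) - J L σ ρ u - J L σ ρ v + J L σ ρ u + J L σ ρ v =
        J L σ ρ (u + v) := by ring
    rwa [e] at h4
  zero_mem' := ⟨Γ.zero_mem, by
    rw [J_zero]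
    exact W.zero_mem⟩
  neg_mem' := by
    rintro u ⟨hu, hu'⟩
    refine ⟨Γ.neg_mem hu, ?_⟩
    rw [J_neg]
    exact W.neg_mem hu'

/-- the integrals of a finitely generated group lie in a space of finite dimension -/
theorem exists_space (L : PeriodPair) (h2 : IsAlgebraic ℚ L.g₂) (h3 : IsAlgebraic ℚ L.g₃)
    (σ ρ : ℂ) (hσ : IsAlgebraic ℚ σ) (Γ : AddSubgroup ℂ) (hfg : Γ.FG)
    (hΓ : ∀ u ∈ Γ, u ∈ EL L) :
    ∃ W : Submodule Qbar ℂ, FiniteDimensional Qbar W ∧ (1 : ℂ) ∈ W ∧ ∀ u ∈ Γ, J L σ ρ u ∈ W := by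
  classical
  obtain ⟨S, hS⟩ := hfg
  let T : Finset ℂ := insert 1 (S.image (J L σ ρ))
  let W : Submodule Qbar ℂ := Submodule.span Qbar (T : Set ℂ)
  have h1 : (1 : ℂ) ∈ W := Submodule.subset_span (Finset.mem_coe.2 (Finset.mem_insert_self _ _))
  refine ⟨W, FiniteDimensional.span_finset Qbar T, h1, fun u hu => ?_⟩
  have hle : Γ ≤ sub L h2 h3 σ ρ hσ Γ hΓ W h1 := by
    have h4 : AddSubgroup.closure (S : Set ℂ) ≤ sub L h2 h3 σ ρ hσ Γ hΓ W h1 := by
      rw [AddSubgroup.closure_le]
      intro v hv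
      refine ⟨hS ▸ AddSubgroup.subset_closure hv, ?_⟩
      exact Submodule.subset_span (Finset.mem_coe.2 (Finset.mem_insert_of_mem
        (Finset.mem_image.2 ⟨v, hv, rfl⟩)))
    rwa [hS] at h4
  exact (hle hu).2

/-- the theorem on linear forms in integrals of the second kind -/
theorem indep (L : PeriodPair) (h2 : IsAlgebraic ℚ L.g₂) (h3 : IsAlgebraic ℚ L.g₃) (σ ρ : ℂ)
    (hσ : IsAlgebraic ℚ σ) (hρ : IsAlgebraic ℚ ρ) (hne : σ ≠ 0 ∨ ρ ≠ 0) {m : ℕ} (u : Fin m → ℂ)
    (hu : ∀ j, u j ∈ EL L) (hind : IndepMult L u) :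
    LinearIndependent Qbar (Fin.cons 1 (fun j => J L σ ρ (u j)) : Fin (m + 1) → ℂ) := by
  rw [Fintype.linearIndependent_iff]
  intro g hg
  rw [Fin.sum_univ_succ] at hg
  simp only [Fin.cons_zero, Fin.cons_succ] at hg
  have hg' : ((g 0 : Qbar) : ℂ) + ∑ j : Fin m, ((g j.succ : Qbar) : ℂ) * J L σ ρ (u j) = 0 := by
    rw [← hg]
    congr 1
    rw [Algebra.smul_def, mul_one]
    rfl
  have h0 : (fun j : Fin m => ((g j.succ : Qbar) : ℂ)) = 0 := by
    refine second_kind h2 h3 u hu (fun α hα h => ?_) σ ρ hσ hρ hne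
      (fun j => ((g j.succ : Qbar) : ℂ)) (fun j => mem_Qbar.1 (g j.succ).2) ?_
    · exact funext fun j => hind α hα h j
    · have e : ∑ r, ((g (Fin.succ r) : Qbar) : ℂ) * (σ * zt L (u r) + ρ * u r) =
          -((g 0 : Qbar) : ℂ) := by
        rw [eq_neg_iff_add_eq_zero, add_comm]
        exact hg'
      rw [e]
      exact (mem_Qbar.1 (g 0).2).neg
  have h1 : ∀ j : Fin m, g j.succ = 0 := fun j => Subtype.ext (congrFun h0 j)
  have h4 : g 0 = 0 := by
    have h5 : ((g 0 : Qbar) : ℂ) = 0 := by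
      simpa [h1] using hg'
    exact_mod_cast h5
  exact fun j => Fin.cases h4 h1 j

/-- **Main result.** -/
theorem result (n : ℕ) (hn : 0 < n) (x : Fin n → ℂ) (hx : AlgebraicIndependent Qbar x) (D : ℕ) :
    -- (1) spaces of periods
    (∀ W : Submodule Qbar ℂ, FiniteDimensional Qbar W →
      ∃ UU : Set (Submodule Qbar ℂ), UU.Finite ∧
        (∀ y, (y ∈ W ∧ Related x D y) ↔ ∃ U ∈ UU, y ∈ U) ∧
        ∀ U ∈ UU, finrank Qbar (U ⊔ Submodule.span Qbar ({1} ∪ Set.range x) : Submodule Qbar ℂ) ≤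
          (D + n).choose n) ∧
    -- (2) integrals of the second kind
    (∀ L : PeriodPair, IsAlgebraic ℚ L.g₂ → IsAlgebraic ℚ L.g₃ →
      ∀ σ ρ : ℂ, IsAlgebraic ℚ σ → IsAlgebraic ℚ ρ → (σ ≠ 0 ∨ ρ ≠ 0) →
      ∀ Γ : AddSubgroup ℂ, Γ.FG → (∀ u ∈ Γ, u ∈ L.lattice ∨ IsAlgebraic ℚ (℘[L] u)) →
      ∃ HH : Set (AddSubgroup ℂ), HH.Finite ∧ (∀ H ∈ HH, H ≤ Γ) ∧
        (∀ p ∈ Γ, p ∉ L.lattice →
          (Related x D (σ * zetaW L p + ρ * p) ↔ ∃ H ∈ HH, p ∈ H)) ∧
        ∀ H ∈ HH, ∀ (r : ℕ) (u : Fin r → ℂ), (∀ j, u j ∈ H) → IndepMult L u →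
          r + 1 ≤ (D + n).choose n ∧
          ∀ q : Fin n → ℂ, (∀ i, q i ∉ L.lattice ∧ IsAlgebraic ℚ (℘[L] (q i))) →
            (∀ i, x i = σ * zetaW L (q i) + ρ * q i) →
            IndepMult L (Fin.append q u) → n + r + 1 ≤ (D + n).choose n) := by
  refine ⟨fun W hW => ?_, ?_⟩
  · obtain ⟨UU, h1, h2, h3⟩ := plain_main (k := Qbar) hn x hx D W
    refine ⟨UU, h1, fun y => ?_, fun U hU => (h3 U hU).2.2⟩
    rw [related_iff]
    exact h2 y
  · intro L h2 h3 σ ρ hσ hρ hne Γ hfg hΓ
    obtain ⟨W, hW, h1W, hJW⟩ := exists_space L h2 h3 σ ρ hσ Γ hfg hΓ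
    obtain ⟨UU, hUf, hUU, hUd⟩ := plain_main (k := Qbar) hn x hx D W
    have h1 : ∀ U : Submodule Qbar ℂ,
        (1 : ℂ) ∈ U ⊔ Submodule.span Qbar ({1} ∪ Set.range x) := fun U =>
      Submodule.mem_sup_right (Submodule.subset_span (Or.inl rfl))
    refine ⟨(fun U : Submodule Qbar ℂ => sub L h2 h3 σ ρ hσ Γ hΓ
      (U ⊔ Submodule.span Qbar ({1} ∪ Set.range x)) (h1 U)) '' UU, hUf.image _, ?_, ?_, ?_⟩
    · rintro _ ⟨U, hU, rfl⟩ u hu
      exact hu.1
    · intro p hp hpl
      rw [related_iff, ← J_of_notMem hpl]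
      constructor
      · intro hr
        obtain ⟨U, hU, hpU⟩ := (hUU _).1 ⟨hJW p hp, hr⟩
        exact ⟨_, ⟨U, hU, rfl⟩, hp, Submodule.mem_sup_left hpU⟩
      · rintro ⟨_, ⟨U, hU, rfl⟩, -, hpU⟩
        exact (hUd U hU).2.1 _ hpU
    · rintro _ ⟨U, hU, rfl⟩ r u hu hind
      obtain ⟨hfd, -, hdim⟩ := hUd U hU
      refine ⟨?_, fun q hq hxq hind' => ?_⟩
      · have hli := indep L h2 h3 σ ρ hσ hρ hne u (fun j => hΓ _ (hu j).1) hind
        refine le_trans ?_ hdim
        have hmem : ∀ j, (Fin.cons 1 (fun j => J L σ ρ (u j)) : Fin (r + 1) → ℂ) j ∈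
            U ⊔ Submodule.span Qbar ({1} ∪ Set.range x) := by
          intro j
          refine Fin.cases ?_ (fun i => ?_) j
          · exact h1 U
          · exact (hu i).2
        have hli' : LinearIndependent Qbar (fun j => (⟨_, hmem j⟩ :
            (U ⊔ Submodule.span Qbar ({1} ∪ Set.range x) : Submodule Qbar ℂ))) :=
          LinearIndependent.of_comp (Submodule.subtype _) hli
        have := hli'.fintype_card_le_finrank
        rwa [Fintype.card_fin] at this
      · have hel : ∀ j, (Fin.append q u) j ∈ EL L := by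
          intro j
          refine Fin.addCases (fun i => ?_) (fun i => ?_) j
          · rw [Fin.append_left]
            exact Or.inr (hq i).2
          · rw [Fin.append_right]
            exact hΓ _ (hu i).1
        have hli := indep L h2 h3 σ ρ hσ hρ hne (Fin.append q u) hel hind'
        refine le_trans ?_ hdim
        have hmem : ∀ j, (Fin.cons 1 (fun j => J L σ ρ (Fin.append q u j)) :
            Fin (n + r + 1) → ℂ) j ∈ U ⊔ Submodule.span Qbar ({1} ∪ Set.range x) := by
          intro j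
          refine Fin.cases ?_ (fun i => ?_) j
          · exact h1 U
          · rw [Fin.cons_succ]
            refine Fin.addCases (fun i => ?_) (fun i => ?_) i
            · rw [Fin.append_left, J_of_notMem (hq i).1, ← hxq i]
              exact Submodule.mem_sup_right (Submodule.subset_span (Or.inr ⟨i, rfl⟩))
            · rw [Fin.append_right]
              exact (hu i).2
        have hli' : LinearIndependent Qbar (fun j => (⟨_, hmem j⟩ :
            (U ⊔ Submodule.span Qbar ({1} ∪ Set.range x) : Submodule Qbar ℂ))) :=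
          LinearIndependent.of_comp (Submodule.subtype _) hli
        have := hli'.fintype_card_le_finrank
        rwa [Fintype.card_fin] at this

end Pool.Agent.Results.MP_1eadae_ag.SecondKindFibres
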