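import Pool.Agent.Q54.HT.Fq

/-!
# Formal periods are single symbols of cubic hypersurfaces with integer coefficients

For a tensor `T` of integers of format `(M + 1) × (M + 1) × (r + 1)` let `E_T` be the hypersurface
`∑ T_{abc} x_a y_b z_c = 1`, `x_0 = y_0 = 1`, in the affine space of dimension `2 M + r + 1` over the
rational numbers (`cubic T`). It is smooth over `ℚ`. We show that every formal period of motives
over the algebraic numbers is the class of one symbol `(H, ω, σ)`, where `H` is, up to a Tate twist,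
the motive of a homology group of `E_T` for one tensor `T`. The evaluation map is injective if and
only if for these motives `H` every vanishing integral `∫_σ ω = 0` has a reason: there is a submotive
of `H` that contains `ω` and that is killed by `σ`.
-/

namespace Pool.Agent.Results.MP_1eadae_ag.SingleSymbols

universe u v w

open Q54.CU Q54.CC Q54.HT CategoryTheory AlgebraicGeometry

/-- The hypersurface `E_T` over the rational numbers. -/
noncomputable def cubic {M r : ℕ} (T : Fin (M + 1) → Fin (M + 1) → Fin (r + 1) → ℤ) : SchO ℚ :=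
  tenO (fun a b c => (T a b c : ℚ)) 1

/-- Every motive is a subquotient of the homology, up to a Tate twist, of a variety over `ℚ` with an
affine bundle over it whose total space is affine (for example an affine variety). -/
def IsGenerated {𝓜 : Type w} [Category.{v} 𝓜] [Abelian 𝓜] (h : ℤ → ℤ → SchO ℚ → 𝓜) : Prop :=
  ∀ A : 𝓜, ∃ Y : SchO ℚ, IsVar Y ∧ HasAffineTorsor Y ∧ ∃ n s : ℤ, IsSubquot A (h n s Y)

/-- **Formal periods and cubic hypersurfaces.** -/
theorem result {𝓜 : Type w} [Category.{v} 𝓜] [Abelian 𝓜] {F : Type} [Field F] (p : PeriodTheory.{u} 𝓜 F)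
    (h : ℤ → ℤ → SchO ℚ → 𝓜) (hh : IsHomology h) (hg : IsGenerated h) :
    (∀ x : Formal p, ∃ (M r : ℕ) (T : Fin (M + 1) → Fin (M + 1) → Fin (r + 1) → ℤ) (n s : ℤ)
      (ω : p.dR.obj (h n s (cubic T))) (σ : Module.Dual ℚ (p.B.obj (h n s (cubic T)))), x = cls p _ ω σ) ∧
    (Function.Injective (ev p) ↔
      ∀ (M r : ℕ) (T : Fin (M + 1) → Fin (M + 1) → Fin (r + 1) → ℤ) (n s : ℤ)
        (ω : p.dR.obj (h n s (cubic T))) (σ : Module.Dual ℚ (p.B.obj (h n s (cubic T)))),
        p.int _ ω σ = 0 → HasReason p _ ω σ) ∧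
    (∀ z : ℂ, z ∈ Set.range (ev p) ↔ ∃ (M r : ℕ) (T : Fin (M + 1) → Fin (M + 1) → Fin (r + 1) → ℤ) (n s : ℤ)
      (ω : p.dR.obj (h n s (cubic T))) (σ : Module.Dual ℚ (p.B.obj (h n s (cubic T)))), z = p.int _ ω σ) ∧
    ∀ (M r : ℕ) (T : Fin (M + 1) → Fin (M + 1) → Fin (r + 1) → ℤ),
      IsVar (cubic T) ∧ IsAffine (cubic T).left ∧ Smooth (cubic T).hom := by
  have h1 : ∀ x : Formal p, ∃ (M r : ℕ) (T : Fin (M + 1) → Fin (M + 1) → Fin (r + 1) → ℤ) (n s : ℤ)
      (ω : p.dR.obj (h n s (cubic T))) (σ : Module.Dual ℚ (p.B.obj (h n s (cubic T)))), x = cls p _ ω σ := by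
    intro x
    obtain ⟨A, ω, σ, rfl⟩ := exists_cls x
    obtain ⟨Y, hY, hT, n, s, hA⟩ := hg A
    obtain ⟨M, r, c, T, hc⟩ := exists_compares hh hY hT (2 * n + s)
    obtain ⟨e⟩ := (hc n s le_rfl).2
    obtain ⟨N, T', hN, hT'⟩ := exists_int_tensor T
    obtain ⟨e'⟩ := scale_iso hh T hN (n + c) (s + 1)
    have h2 : IsSubquot A (h (n + c) (s + 1) (cubic T')) := by
      rw [cubic, hT']
      exact (hA.iso e.symm).iso e'.symm
    obtain ⟨ω', σ', h3⟩ := cls_subquot h2 ω σ
    exact ⟨M, r, T', n + c, s + 1, ω', σ', h3⟩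
  refine ⟨h1, ?_, ?_, fun M r T => ⟨isVar_tenO _ 1, isAffine_tenO _ 1, smooth_hyp (tq _)⟩⟩
  · constructor
    · intro h2 M r T n s ω σ h3
      rw [← cls_eq_zero_iff]
      refine h2 ?_
      rw [ev_cls, h3, map_zero]
    · intro h2
      rw [injective_iff_map_eq_zero]
      intro x hx
      obtain ⟨M, r, T, n, s, ω, σ, rfl⟩ := h1 x
      rw [ev_cls] at hx
      exact (cls_eq_zero_iff _ _ _).2 (h2 M r T n s ω σ hx)
  · intro z
    constructor
    · rintro ⟨x, rfl⟩
      obtain ⟨M, r, T, n, s, ω, σ, rfl⟩ := h1 x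
      exact ⟨M, r, T, n, s, ω, σ, ev_cls _ _ _⟩
    · rintro ⟨M, r, T, n, s, ω, σ, rfl⟩
      exact ⟨_, ev_cls _ _ _⟩

end Pool.Agent.Results.MP_1eadae_ag.SingleSymbols
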